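import Pool.Agent.N929.EG.SzStm

set_option autoImplicit false
set_option linter.unusedVariables false

/-! # NEA: all the vertices of a move are near its first vertex -/

namespace Pool.Agent.N692.EG

open Pool.Agent.N929.EG

variable {Ver : Type}

theorem nea_sum (f : Ver → ℝ) (B : ℝ) : ∀ l : List Ver, (∀ x ∈ l, f x ≤ B) →
    sm f l ≤ l.length * B := by
  intro l
  induction l with
  | nil => intro _; simp [sm]
  | cons a l ih =>
    intro h
    have h1 := ih fun x hx => h x (by simp [hx])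
    have h2 := h a (by simp)
    unfold sm at h1 ⊢
    simp only [List.map_cons, List.sum_cons, List.length_cons, Nat.cast_add, Nat.cast_one]
    linarith

theorem nea_norm (f : Ver → ℂ) (B : ℝ) : ∀ l : List Ver, (∀ x ∈ l, ‖f x‖ ≤ B) →
    ‖sm f l‖ ≤ l.length * B := by
  intro l
  induction l with
  | nil => intro _; simp [sm]
  | cons a l ih =>
    intro h
    have h1 := ih fun x hx => h x (by simp [hx])
    have h2 := h a (by simp)
    unfold sm at h1 ⊢
    simp only [List.map_cons, List.sum_cons, List.length_cons, Nat.cast_add, Nat.cast_one]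
    have h3 := norm_add_le (f a) (List.map f l).sum
    linarith

theorem nea : S_NEA := by
  intro Ver X A Z pt R hR
  set m : ℝ := ((Z.k + Z.s : ℕ) : ℝ) with hm
  have hm0 : 0 ≤ m := by positivity
  refine ⟨m * (2 + 2 * |R| ^ 2) + 2 * m * (1 + |R|), by positivity, ?_⟩
  intro q hq c
  obtain ⟨⟨p, r, X1, X2, e1, e2, -, -⟩, -⟩ := Z.pair _ _ hq
  have hhd : hd X q = p := by
    unfold hd
    rw [e1]
    simp
  have hp : p ∈ q.1 ++ q.2 := by rw [e1]; simp
  have hnear : ∀ y ∈ q.1 ++ q.2, ‖pt p - pt y‖ ≤ |R| := fun y hy =>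
    (hR p y (Z.loc _ _ hq p hp y hy)).trans (le_abs_self R)
  set a : ℝ := ‖pt p - c‖ with ha
  have ha0 : 0 ≤ a := norm_nonneg _
  have hR0 : 0 ≤ |R| := abs_nonneg R
  have hd1 : ∀ y ∈ q.1 ++ q.2, ‖pt y - c‖ ≤ a + |R| := by
    intro y hy
    have h1 := hnear y hy
    rw [norm_sub_rev] at h1
    have h2 : pt y - c = (pt p - c) + (pt y - pt p) := by ring
    calc ‖pt y - c‖ = ‖(pt p - c) + (pt y - pt p)‖ := by rw [← h2]
      _ ≤ ‖pt p - c‖ + ‖pt y - pt p‖ := norm_add_le _ _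
      _ ≤ a + |R| := by linarith
  have hd2 : ∀ y ∈ q.1 ++ q.2, ‖pt y - c‖ ^ 2 ≤ 2 * a ^ 2 + 2 * |R| ^ 2 := by
    intro y hy
    have h1 : ‖pt y - c‖ ^ 2 ≤ (a + |R|) ^ 2 := pow_le_pow_left₀ (norm_nonneg _) (hd1 y hy) 2
    nlinarith [sq_nonneg (a - |R|)]
  obtain ⟨l1, l2⟩ := Z.len _ _ hq
  have hl1 : ((q.1.length : ℕ) : ℝ) ≤ m := by
    rw [l1, hm]
    exact_mod_cast Nat.le_add_right _ _
  have hl2 : ((q.2.length : ℕ) : ℝ) ≤ m := by
    rw [l2, hm]
  have hsq : ∀ l : List Ver, (∀ y ∈ l, y ∈ q.1 ++ q.2) → ((l.length : ℕ) : ℝ) ≤ m →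
      sm (fun x => ‖pt x - c‖ ^ 2) l ≤ (m * (2 + 2 * |R| ^ 2) + 2 * m * (1 + |R|)) * (a ^ 2 + 1) := by
    intro l hl hlm
    have h1 := nea_sum (fun x => ‖pt x - c‖ ^ 2) (2 * a ^ 2 + 2 * |R| ^ 2) l
      (fun x hx => hd2 x (hl x hx))
    have h2 : (l.length : ℝ) * (2 * a ^ 2 + 2 * |R| ^ 2) ≤ m * (2 * a ^ 2 + 2 * |R| ^ 2) :=
      mul_le_mul_of_nonneg_right hlm (by positivity)
    have h3 : 0 ≤ m * |R| ^ 2 * a ^ 2 := by positivity
    have h4 : 0 ≤ 2 * m * (1 + |R|) * (a ^ 2 + 1) := by positivity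
    nlinarith
  have hno : ∀ l : List Ver, (∀ y ∈ l, y ∈ q.1 ++ q.2) → ((l.length : ℕ) : ℝ) ≤ m →
      ‖sm (fun x => pt x - c) l‖ ≤ m * (a + |R|) := by
    intro l hl hlm
    have h1 := nea_norm (fun x => pt x - c) (a + |R|) l (fun x hx => hd1 x (hl x hx))
    exact h1.trans (mul_le_mul_of_nonneg_right hlm (by positivity))
  rw [hhd]
  refine ⟨hsq q.1 (fun y hy => by simp [hy]) hl1, hsq q.2 (fun y hy => by simp [hy]) hl2, ?_⟩
  have h1 := hno q.1 (fun y hy => by simp [hy]) hl1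
  have h2 := hno q.2 (fun y hy => by simp [hy]) hl2
  refine (norm_sub_le _ _).trans ?_
  have h3 : 0 ≤ m * (2 + 2 * |R| ^ 2) * (a + 1) := by positivity
  have h4 : 0 ≤ m * |R| * a := by positivity
  have h5 : 0 ≤ m := hm0
  nlinarith

end Pool.Agent.N692.EG
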